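import Mathlib

namespace Pool.Agent.Results.MP_d4a483_lc.Yes

open Set TopologicalSpace Topology

/-- Todorcevic's open colouring principle. -/
def OCA : Prop := ∀ (X : Type) [TopologicalSpace X] [MetrizableSpace X] [SeparableSpace X]
  (K : Set (X × X)), IsOpen K → (∀ x y, (x, y) ∈ K → (y, x) ∈ K) →
    (∃ Y : Set X, ¬ Y.Countable ∧ Y.Pairwise fun x y => (x, y) ∈ K) ∨
      ∃ Z : ℕ → Set X, ⋃ n, Z n = Set.univ ∧ ∀ n, (Z n).Pairwise fun x y => (x, y) ∉ K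

/-- No infinite strictly increasing sequence in the family. -/
def Noeth {X : Type*} (Γ : Set (Set X)) : Prop :=
  ¬ ∃ A : ℕ → Set X, (∀ n, A n ∈ Γ) ∧ ∀ n, A n ⊂ A (n + 1)

/-- Every incomparable subfamily whose members share a point is countable. -/
def CRank {X : Type*} (Γ : Set (Set X)) : Prop :=
  ∀ x : X, ∀ F ⊆ Γ, (∀ A ∈ F, x ∈ A) → F.Pairwise (fun A B => ¬ A ⊆ B) → F.Countable

theorem star (h : OCA) {ι : Type} [Countable ι] {α : Type*} (F : Set α) (c : α → Set ι)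
    (H : ∀ G ⊆ F, G.Pairwise (fun a b => ¬ c a ⊆ c b) → G.Countable) :
    ∃ Z : ℕ → Set α, F ⊆ ⋃ n, Z n ∧ ∀ n, ∀ a ∈ Z n, ∀ b ∈ Z n, c a ⊆ c b ∨ c b ⊆ c a := by
  classical
  let e : α → ι → Bool := fun a i => decide (i ∈ c a)
  let X := {x : ι → Bool // ∃ a ∈ F, e a = x}
  have ho : ∀ (f : X × X → X) (i : ι) (b : Bool), Continuous f →
      IsOpen {p : X × X | (f p).1 i = b} := fun f i b hf =>
    (isOpen_discrete {b}).preimage ((continuous_apply i).comp (continuous_subtype_val.comp hf))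
  haveI : SecondCountableTopology X := Subtype.secondCountableTopology {x | ∃ a ∈ F, e a = x}
  haveI : MetrizableSpace X := metrizableSpace_of_t3_secondCountable X
  rcases h X {p | (∃ i, p.1.1 i = true ∧ p.2.1 i = false) ∧
      ∃ i, p.2.1 i = true ∧ p.1.1 i = false} (by
    simp only [setOf_and, setOf_exists]
    exact (isOpen_iUnion fun i => (ho _ i _ continuous_fst).inter (ho _ i _ continuous_snd)).inter
      (isOpen_iUnion fun i => (ho _ i _ continuous_snd).inter (ho _ i _ continuous_fst)))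
    (fun x y k => ⟨k.2, k.1⟩) with ⟨Y, hY, hp⟩ | ⟨Z, hZ, hp⟩
  · exfalso
    choose g hg1 hg2 using fun x : X => x.2
    have hi : Function.Injective g := fun x y k => Subtype.ext (by rw [← hg2, ← hg2, k])
    refine hY ((countable_of_injective_of_countable_image hi.injOn) (H _ ?_ ?_))
    · rintro _ ⟨x, -, rfl⟩; exact hg1 x
    · rintro _ ⟨x, hx, rfl⟩ _ ⟨y, hy, rfl⟩ hne hs
      obtain ⟨⟨i, h1, h2⟩, -⟩ := hp hx hy fun k => hne (by rw [k])
      simp only [← hg2, e, decide_eq_true_eq, decide_eq_false_iff_not] at h1 h2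
      exact h2 (hs h1)
  · refine ⟨fun n => {a | ∃ ha : a ∈ F, (⟨e a, a, ha, rfl⟩ : X) ∈ Z n}, fun a ha => ?_, ?_⟩
    · obtain ⟨n, hn⟩ := mem_iUnion.1 (hZ.ge (mem_univ (⟨e a, a, ha, rfl⟩ : X)))
      exact mem_iUnion.2 ⟨n, ha, hn⟩
    · rintro n a ⟨ha, h1⟩ b ⟨hb, h2⟩
      by_contra k
      rw [not_or, not_subset, not_subset] at k
      obtain ⟨⟨i, i1, i2⟩, j, j1, j2⟩ := k
      refine hp n h1 h2 (fun k => ?_) ⟨⟨i, by simp [e, i1], by simp [e, i2]⟩,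
        j, by simp [e, j1], by simp [e, j2]⟩
      have := congrFun (congrArg Subtype.val k) i
      simp [e, i1, i2] at this

theorem pick {α : Type*} {F : Set α} {Z : ℕ → Set α} (hF : ¬ F.Countable) (h : F ⊆ ⋃ n, Z n) :
    ∃ n, ¬ (F ∩ Z n).Countable := by
  by_contra! k
  refine hF ((countable_iUnion k).mono fun a ha => ?_)
  obtain ⟨n, hn⟩ := mem_iUnion.1 (h ha)
  exact mem_iUnion.2 ⟨n, ha, hn⟩

theorem noe {X : Type*} {ι : Type} [Countable ι] {Γ G : Set (Set X)} (hN : Noeth Γ) (hG : G ⊆ Γ)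
    (e : Set X → Set ι) (he : ∀ a ∈ G, ∀ b ∈ G, e a ⊆ e b ↔ a ⊆ b)
    (hc : ∀ a ∈ G, ∀ b ∈ G, a ⊆ b ∨ b ⊆ a) : G.Countable := by
  have h1 : ∀ i, ({B ∈ G | i ∈ e B ∧ ∀ C ∈ G, C ⊂ B → i ∉ e C}).Subsingleton := by
    rintro i a ⟨ha, a1, a2⟩ b ⟨hb, b1, b2⟩
    by_contra k
    rcases hc a ha b hb with l | l
    · exact b2 a ha (ssubset_of_subset_of_ne l k) a1
    · exact a2 b hb (ssubset_of_subset_of_ne l (Ne.symm k)) b1
  have h2 : ({B ∈ G | ∀ C ∈ G, ¬ C ⊂ B}).Subsingleton := by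
    rintro a ⟨ha, a2⟩ b ⟨hb, b2⟩
    by_contra k
    rcases hc a ha b hb with l | l
    · exact b2 a ha (ssubset_of_subset_of_ne l k)
    · exact a2 b hb (ssubset_of_subset_of_ne l (Ne.symm k))
  refine ((countable_iUnion fun i => (h1 i).countable).union h2.countable).mono fun B hB => ?_
  by_contra k
  simp only [mem_union, mem_iUnion, mem_setOf_eq, not_or, not_exists, not_and, not_forall,
    not_not, exists_prop] at k
  obtain ⟨C0, c1, c2⟩ := k.2 hB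
  have st : ∀ C : {C // C ∈ G ∧ C ⊂ B}, ∃ D : {C // C ∈ G ∧ C ⊂ B}, C.1 ⊂ D.1 := by
    rintro ⟨C, h3, h4⟩
    obtain ⟨i, i1, i2⟩ := not_subset.1 (fun l => h4.2 ((he B hB C h3).1 l))
    obtain ⟨D, d1, d2, d3⟩ := k.1 i hB i1
    refine ⟨⟨D, d1, d2⟩, ?_⟩
    have : ¬ D ⊆ C := fun l => i2 ((he D d1 C h3).2 l d3)
    exact ⟨(hc C h3 D d1).resolve_right this, this⟩
  choose f hf using st
  exact hN ⟨fun n => (f^[n] ⟨C0, c1, c2⟩).1, fun n => hG (f^[n] ⟨C0, c1, c2⟩).2.1, fun n => by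
    simp only [Function.iterate_succ_apply']; exact hf _⟩

theorem thin {α κ : Type*} [Countable κ] {F : Set α} (hF : ¬ F.Countable) (a : κ → α → Set ℕ)
    (hc : ∀ x ∈ F, ∀ y ∈ F, (∀ k, a k x ⊆ a k y) ∨ ∀ k, a k y ⊆ a k x) :
    ∃ G ⊆ F, ¬ G.Countable ∧
      {T | ∃ k, ∃ x ∈ G, ∃ y ∈ G, x ≠ y ∧ a k x = T ∧ a k y = T}.Countable := by
  by_cases h : ∃ v : κ → Set ℕ, ¬ {x ∈ F | (fun k => a k x) = v}.Countable
  · obtain ⟨v, hv⟩ := h
    refine ⟨_, sep_subset _ _, hv, (countable_range v).mono ?_⟩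
    rintro T ⟨k, x, hx, -, -, -, h1, -⟩
    exact ⟨k, by rw [← hx.2]; exact h1⟩
  push Not at h
  obtain ⟨G, g1, g2⟩ := exists_subset_bijOn F (fun x k => a k x)
  refine ⟨G, g1, fun hG => hF ?_, ?_⟩
  · have : ((fun x k => a k x) '' F).Countable := by rw [← g2.image_eq]; exact hG.image _
    refine (this.biUnion fun v _ => h v).mono fun x hx => ?_
    exact mem_iUnion₂.2 ⟨_, mem_image_of_mem _ hx, hx, rfl⟩
  · have h1 : ∀ p : κ × κ × ℕ, {T | ∃ x ∈ F, ∃ y ∈ F, p.2.2 ∉ a p.2.1 x ∧ p.2.2 ∈ a p.2.1 y ∧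
        a p.1 x = T ∧ a p.1 y = T}.Subsingleton := by
      rintro ⟨k, j, n⟩ T ⟨x, hx, y, hy, t1, t2, t3, t4⟩ S ⟨z, hz, w, hw, s1, s2, s3, s4⟩
      refine Subset.antisymm ?_ ?_
      · rw [← t3, ← s4]
        exact ((hc x hx w hw).resolve_right fun l => t1 (l _ s2)) _
      · rw [← s3, ← t4]
        exact ((hc z hz y hy).resolve_right fun l => s1 (l _ t2)) _
    refine (countable_iUnion fun p => (h1 p).countable).mono ?_
    rintro T ⟨k, x, hx, y, hy, hne, t1, t2⟩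
    have : ∃ j, a j x ≠ a j y := by
      by_contra! l
      exact hne (g2.injOn hx hy (funext l))
    obtain ⟨j, hj⟩ := this
    rw [Ne, Subset.antisymm_iff, not_and_or, not_subset, not_subset] at hj
    rcases hj with ⟨n, n1, n2⟩ | ⟨n, n1, n2⟩
    · exact mem_iUnion.2 ⟨(k, j, n), y, g1 hy, x, g1 hx, n2, n1, t2, t1⟩
    · exact mem_iUnion.2 ⟨(k, j, n), x, g1 hx, y, g1 hy, n2, n1, t1, t2⟩

theorem result (h : OCA) (X : Type*) [TopologicalSpace X] [T1Space X] [RegularSpace X]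
    [SeparableSpace X] (Γ : Set (Set X)) (hb : IsTopologicalBasis Γ) (hN : Noeth Γ)
    (hR : CRank Γ) : Γ.Countable ∧ MetrizableSpace X := by
  suffices H : Γ.Countable by
    haveI := hb.secondCountableTopology H
    exact ⟨H, metrizableSpace_of_t3_secondCountable X⟩
  cases isEmpty_or_nonempty X
  · exact (Set.to_countable _)
  obtain ⟨d, hd⟩ := exists_dense_seq X
  let F : ℕ → Set (Set X) := fun m => {U ∈ Γ | d m ∈ U}
  have hF : ∀ {ι : Type} [Countable ι] (m : ℕ), ∀ E ⊆ F m, ∀ c : Set X → Set ι,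
      (∀ a b, a ⊆ b → c a ⊆ c b) → ∃ Z : ℕ → Set (Set X), E ⊆ ⋃ n, Z n ∧
        ∀ n, ∀ a ∈ Z n, ∀ b ∈ Z n, c a ⊆ c b ∨ c b ⊆ c a := fun m E hE c hc =>
    star h E c fun G g1 g2 => hR (d m) G (fun U hU => (hE (g1 hU)).1) (fun U hU => (hE (g1 hU)).2)
      fun a ha b hb' hne l => g2 ha hb' hne (hc a b l)
  choose Z z1 z2 using fun m => hF m (F m) subset_rfl (fun U => d ⁻¹' U) fun a b => preimage_mono
  let C : ℕ × ℕ → Set (Set ℕ) := fun k => (fun U => d ⁻¹' U) '' Z k.1 k.2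
  let P : Set ℕ → Set X → Prop := fun T B => closure (d '' T) ⊆ B
  have hC : ∀ k, ∀ S ∈ C k, ∀ T ∈ C k, S ⊆ T ∨ T ⊆ S := by
    rintro k _ ⟨U, hU, rfl⟩ _ ⟨V, hV, rfl⟩
    exact z2 _ _ U hU V hV
  have key : ∀ B B' : Set X, IsOpen B → (∀ k, ∀ T ∈ C k, P T B → P T B') → B ⊆ B' := by
    intro B B' hB H x hx
    obtain ⟨K, k1, k2, k3⟩ := exists_mem_nhds_isClosed_subset (hB.mem_nhds hx)
    obtain ⟨U, u1, u2, u3⟩ := hb.mem_nhds_iff.1 k1
    obtain ⟨m, hm⟩ := hd.exists_mem_open (hb.isOpen u1) ⟨x, u2⟩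
    obtain ⟨n, hn⟩ := mem_iUnion.1 (z1 m ⟨u1, hm⟩)
    refine H (m, n) _ ⟨U, hn, rfl⟩ ((closure_minimal ((image_preimage_subset _ _).trans u3)
      k2).trans k3) ?_
    rw [image_preimage_eq_inter_range]
    exact hd.open_subset_closure_inter (hb.isOpen u1) u2
  let a : ℕ × ℕ → Set X → Set ℕ := fun k B => ⋃₀ {T ∈ C k | P T B}
  have am : ∀ k B B', B ⊆ B' → a k B ⊆ a k B' := fun k B B' l =>
    sUnion_mono fun T hT => ⟨hT.1, hT.2.trans l⟩
  let c : Set X → Set ((ℕ × ℕ) × ℕ) := fun B => {p | p.2 ∈ a p.1 B}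
  have hm : ∀ m, (F m).Countable := fun m => by
    by_contra k
    obtain ⟨Y, y1, y2⟩ := hF m (F m) subset_rfl c fun B B' l p hp => am _ _ _ l hp
    obtain ⟨n, hn⟩ := pick k y1
    obtain ⟨G, g1, g2, g3⟩ := thin hn a fun x hx y hy =>
      (y2 n x hx.2 y hy.2).imp (fun l k i hi => l (a := (k, i)) hi) fun l k i hi => l (a := (k, i)) hi
    haveI := g3.to_subtype
    let e : Set X → Set (((ℕ × ℕ) × ℕ) ⊕
      {T | ∃ k, ∃ x ∈ G, ∃ y ∈ G, x ≠ y ∧ a k x = T ∧ a k y = T}) :=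
      fun B => {p | Sum.elim (fun q => q ∈ c B) (fun T => P T.1 B) p}
    have em : ∀ B B', B ⊆ B' → e B ⊆ e B' := by
      rintro B B' l (p | T) hp
      · exact am _ _ _ l hp
      · exact Subset.trans hp l
    have er : ∀ B ∈ G, ∀ B' ∈ G, e B ⊆ e B' → B ⊆ B' := fun B hB B' hB' l => by
      by_cases q : B = B'
      · exact q.subset
      refine key B B' (hb.isOpen (g1 hB).1.1) fun k T hT hP => ?_
      by_contra hP'
      have t1 : T ⊆ a k B := subset_sUnion_of_mem ⟨hT, hP⟩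
      have t2 : a k B ⊆ a k B' := fun i hi => l (a := Sum.inl (k, i)) hi
      have t3 : a k B' ⊆ T := sUnion_subset fun S hS => (hC k S hS.1 T hT).resolve_right
        fun l => hP' ((closure_mono (image_mono l)).trans hS.2)
      exact hP' (l (a := Sum.inr ⟨T, k, B, hB, B', hB', q, (t2.trans t3).antisymm t1,
        t3.antisymm (t1.trans t2)⟩) hP)
    obtain ⟨W, w1, w2⟩ := hF m G (fun x hx => (g1 hx).1) e em
    obtain ⟨j, hj⟩ := pick g2 w1
    exact hj (noe hN (fun x hx => (g1 hx.1).1.1) e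
      (fun x hx y hy => ⟨er x hx.1 y hy.1, em x y⟩) fun x hx y hy =>
        (w2 j x hx.2 y hy.2).imp (er x hx.1 y hy.1) (er y hy.1 x hx.1))
  refine ((countable_iUnion hm).insert ∅).mono fun U hU => ?_
  rcases U.eq_empty_or_nonempty with rfl | l
  · exact mem_insert _ _
  · obtain ⟨m, hm⟩ := hd.exists_mem_open (hb.isOpen hU) l
    exact mem_insert_of_mem _ (mem_iUnion.2 ⟨m, hU, hm⟩)

end Pool.Agent.Results.MP_d4a483_lc.Yes
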